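import Pool.Agent.Helper98.LogPoly.Defs

set_option autoImplicit false

/-! Piece P2 RAD of MP_b30792_pr: expansion of the regularised logarithm under one step of the
difference walk. -/

namespace Pool.Agent.Helper98.LogPoly

/-- third order expansion of the logarithm -/
lemma log_expand3 {y : ℝ} (hy : |y| ≤ 1 / 2) :
    |Real.log (1 + y) - (y - y ^ 2 / 2 + y ^ 3 / 3)| ≤ 2 * y ^ 4 := by
  have h1 : |(-y)| < 1 := by rw [abs_neg]; linarith only [hy]
  have h := Real.abs_log_sub_add_sum_range_le h1 3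
  have e1 : (∑ i ∈ Finset.range 3, (-y) ^ (i + 1) / ((i : ℝ) + 1)) =
      -(y - y ^ 2 / 2 + y ^ 3 / 3) := by
    simp [Finset.sum_range_succ]
    ring
  rw [e1, sub_neg_eq_add, abs_neg] at h
  have e2 : -(y - y ^ 2 / 2 + y ^ 3 / 3) + Real.log (1 + y) =
    Real.log (1 + y) - (y - y ^ 2 / 2 + y ^ 3 / 3) := by ring
  rw [e2] at h
  refine h.trans ?_
  rw [div_le_iff₀ (by linarith only [hy])]
  have e3 : |y| ^ (3 + 1) = y ^ 4 := by
    have : |y| ^ 4 = (|y| ^ 2) ^ 2 := by ring
    rw [show 3 + 1 = 4 from rfl, this, sq_abs]; ring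
  rw [e3]
  have h4 : 0 ≤ y ^ 4 := by positivity
  nlinarith only [hy, h4]

/-- first order expansion of the logarithm -/
lemma log_expand1 {y : ℝ} (hy : |y| ≤ 1 / 2) : |Real.log (1 + y) - y| ≤ 2 * y ^ 2 := by
  have h1 : |(-y)| < 1 := by rw [abs_neg]; linarith
  have h := Real.abs_log_sub_add_sum_range_le h1 1
  have e1 : (∑ i ∈ Finset.range 1, (-y) ^ (i + 1) / ((i : ℝ) + 1)) = -y := by
    simp
  rw [e1, sub_neg_eq_add, abs_neg] at h
  have e2 : -y + Real.log (1 + y) = Real.log (1 + y) - y := by ring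
  rw [e2] at h
  refine h.trans ?_
  rw [div_le_iff₀ (by linarith only [hy])]
  rw [show 1 + 1 = 2 from rfl, sq_abs]
  have h4 : 0 ≤ y ^ 2 := by positivity
  nlinarith only [hy]

/-- increment of the squared norm -/
noncomputable def inc (x : Pt) (i j : Fin 4) : ℝ := nsq (x + stp i - stp j) - nsq x

lemma inc_abs (x : Pt) (i j : Fin 4) {s : ℝ} (hs : 1 ≤ s) (hx : nsq x ≤ s ^ 2) :
    |inc x i j| ≤ 8 * s := by
  unfold nsq at hx
  have hX : |(x.1 : ℝ)| ≤ s := abs_le_of_sq_le_sq (by linarith only [hx, sq_nonneg (x.2 : ℝ)]) (by linarith)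
  have hY : |(x.2 : ℝ)| ≤ s := abs_le_of_sq_le_sq (by linarith only [hx, sq_nonneg (x.1 : ℝ)]) (by linarith)
  rw [abs_le] at hX hY
  unfold inc nsq
  fin_cases i <;> fin_cases j <;> simp [stp] <;>
    first
    | linarith
    | (rw [abs_le]; constructor <;> linarith only [hs, hX, hY])

lemma sums (x : Pt) :
    (∑ i : Fin 4, ∑ j : Fin 4, inc x i j = 32) ∧
    (∑ i : Fin 4, ∑ j : Fin 4, inc x i j ^ 2 = 16 * (4 * nsq x + 6)) ∧
    (∑ i : Fin 4, ∑ j : Fin 4, inc x i j ^ 3 = 16 * (36 * nsq x + 20)) := by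
  refine ⟨?_, ?_, ?_⟩ <;> unfold inc nsq <;> simp [Fin.sum_univ_four, stp] <;> ring

theorem rad_bounds : ∃ C κ0 : ℝ, 1 ≤ κ0 ∧ 0 < C ∧ ∀ κ : ℝ, κ0 ≤ κ → ∀ x : Pt,
    |PD (rho κ) x - rho κ x - κ / (κ + nsq x) ^ 2| ≤ C / (κ + nsq x) ^ 2 ∧
    |PD (fun y => (rho κ y - rho κ x) ^ 2) x - nsq x / (κ + nsq x) ^ 2| ≤
      C / ((κ + nsq x) * Real.sqrt (κ + nsq x)) ∧
    ∀ i j : Fin 4, |rho κ (x + stp i - stp j) - rho κ x| ≤ C / Real.sqrt (κ + nsq x) := by
  refine ⟨5000, 256, by norm_num, by norm_num, ?_⟩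
  intro κ hκ x
  have hn0 : 0 ≤ nsq x := by unfold nsq; positivity
  set w : ℝ := κ + nsq x with hw
  set s : ℝ := Real.sqrt w with hs
  have hw256 : 256 ≤ w := by linarith
  have hss : s ^ 2 = w := Real.sq_sqrt (by linarith)
  have hs16 : 16 ≤ s := by
    rw [hs]; apply Real.le_sqrt_of_sq_le; linarith
  have hs0 : 0 < s := by linarith
  have hw0 : 0 < w := by linarith
  -- increments
  set y : Fin 4 → Fin 4 → ℝ := fun i j => inc x i j / w with hy
  have hinc : ∀ i j, |inc x i j| ≤ 8 * s := fun i j =>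
    inc_abs x i j (by linarith) (by rw [hss]; linarith)
  have hyb : ∀ i j, |y i j| ≤ 8 / s := by
    intro i j
    rw [hy]
    simp only
    rw [abs_div, abs_of_pos hw0, div_le_div_iff₀ hw0 hs0, ← hss]
    have := hinc i j
    nlinarith only [this, hs16]
  have hyh : ∀ i j, |y i j| ≤ 1 / 2 := by
    intro i j
    refine (hyb i j).trans ?_
    rw [div_le_div_iff₀ hs0 (by norm_num)]
    linarith
  have hrho : ∀ i j, rho κ (x + stp i - stp j) - rho κ x = 1 / 2 * Real.log (1 + y i j) := by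
    intro i j
    unfold rho
    have h1 : κ + nsq (x + stp i - stp j) = w * (1 + y i j) := by
      rw [hy, hw]; simp only
      unfold inc
      field_simp
      ring
    have h2 : 0 < 1 + y i j := by
      have := hyh i j
      rw [abs_le] at this
      linarith
    rw [h1, Real.log_mul hw0.ne' h2.ne', ← hw]
    ring
  obtain ⟨S1, S2, S3⟩ := sums x
  have hPD : ∀ f : Pt → ℝ, PD f x = (1 / 16) * ∑ i : Fin 4, ∑ j : Fin 4, f (x + stp i - stp j) :=
    fun f => rfl
  have hconst : ∀ c : ℝ, ∑ _i : Fin 4, ∑ _j : Fin 4, c = 16 * c := by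
    intro c; simp; ring
  refine ⟨?_, ?_, ?_⟩
  · -- first bound
    have e1 : PD (rho κ) x - rho κ x =
        (1 / 16) * ∑ i : Fin 4, ∑ j : Fin 4, (1 / 2 * Real.log (1 + y i j)) := by
      rw [hPD]
      have : ∑ i : Fin 4, ∑ j : Fin 4, rho κ (x + stp i - stp j) =
        ∑ i : Fin 4, ∑ j : Fin 4, (1 / 2 * Real.log (1 + y i j)) + 16 * rho κ x := by
        rw [← hconst, ← Finset.sum_add_distrib]
        apply Finset.sum_congr rfl; intro i _
        rw [← Finset.sum_add_distrib]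
        apply Finset.sum_congr rfl; intro j _
        rw [← hrho i j]; ring
      rw [this]; ring
    have e2 : (1 / 16) * ∑ i : Fin 4, ∑ j : Fin 4, (1 / 2 * (y i j - y i j ^ 2 / 2 +
        y i j ^ 3 / 3)) = 1 / w - (2 * nsq x + 3) / (2 * w ^ 2) +
          (18 * nsq x + 10) / (3 * w ^ 3) := by
      have : ∑ i : Fin 4, ∑ j : Fin 4, (1 / 2 * (y i j - y i j ^ 2 / 2 + y i j ^ 3 / 3)) =
        (1 / (2 * w)) * (∑ i : Fin 4, ∑ j : Fin 4, inc x i j) -
        (1 / (4 * w ^ 2)) * (∑ i : Fin 4, ∑ j : Fin 4, inc x i j ^ 2) +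
        (1 / (6 * w ^ 3)) * (∑ i : Fin 4, ∑ j : Fin 4, inc x i j ^ 3) := by
        rw [Finset.mul_sum, Finset.mul_sum, Finset.mul_sum, ← Finset.sum_sub_distrib,
          ← Finset.sum_add_distrib]
        apply Finset.sum_congr rfl; intro i _
        rw [Finset.mul_sum, Finset.mul_sum, Finset.mul_sum, ← Finset.sum_sub_distrib,
          ← Finset.sum_add_distrib]
        apply Finset.sum_congr rfl; intro j _
        rw [hy]; simp only
        field_simp
        ring
      rw [this, S1, S2, S3]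
      field_simp
      ring
    have e3 : |(1 / 16) * ∑ i : Fin 4, ∑ j : Fin 4, (1 / 2 * Real.log (1 + y i j)) -
        (1 / 16) * ∑ i : Fin 4, ∑ j : Fin 4, (1 / 2 * (y i j - y i j ^ 2 / 2 +
          y i j ^ 3 / 3))| ≤ 4096 / w ^ 2 := by
      rw [← mul_sub, ← Finset.sum_sub_distrib, abs_mul, abs_of_pos (by norm_num : (0:ℝ) < 1 / 16)]
      have h1 : |∑ i : Fin 4, (∑ j : Fin 4, (1 / 2 * Real.log (1 + y i j)) -
          ∑ j : Fin 4, (1 / 2 * (y i j - y i j ^ 2 / 2 + y i j ^ 3 / 3)))| ≤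
          ∑ _i : Fin 4, ∑ _j : Fin 4, 4096 / w ^ 2 := by
        refine (Finset.abs_sum_le_sum_abs _ _).trans (Finset.sum_le_sum fun i _ => ?_)
        rw [← Finset.sum_sub_distrib]
        refine (Finset.abs_sum_le_sum_abs _ _).trans (Finset.sum_le_sum fun j _ => ?_)
        rw [← mul_sub, abs_mul, abs_of_pos (by norm_num : (0:ℝ) < 1 / 2)]
        have h2 := log_expand3 (hyh i j)
        have h3 : y i j ^ 4 ≤ 4096 / w ^ 2 := by
          have h4 : y i j ^ 4 = (|y i j|) ^ 4 := by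
            have : |y i j| ^ 4 = (|y i j| ^ 2) ^ 2 := by ring
            rw [this, sq_abs]; ring
          rw [h4]
          calc |y i j| ^ 4 ≤ (8 / s) ^ 4 := by
                gcongr; exact hyb i j
            _ = 4096 / w ^ 2 := by
                rw [← hss]; field_simp; norm_num
        linarith only [h2, h3]
      rw [hconst] at h1
      linarith
    rw [e1]
    rw [e2] at e3
    have e4 : 1 / w - (2 * nsq x + 3) / (2 * w ^ 2) + (18 * nsq x + 10) / (3 * w ^ 3) -
        κ / w ^ 2 = (-(3 / 2) + (18 * nsq x + 10) / (3 * w)) / w ^ 2 := by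
      have hκw : κ = w - nsq x := by rw [hw]; ring
      rw [hκw]
      field_simp
      ring
    have e5 : |1 / w - (2 * nsq x + 3) / (2 * w ^ 2) + (18 * nsq x + 10) / (3 * w ^ 3) -
        κ / w ^ 2| ≤ 12 / w ^ 2 := by
      rw [e4, abs_div, abs_of_pos (by positivity : (0:ℝ) < w ^ 2)]
      gcongr
      have h1 : (18 * nsq x + 10) / (3 * w) ≤ 7 := by
        rw [div_le_iff₀ (by positivity)]
        linarith only [hκ, hn0]
      have h2 : 0 ≤ (18 * nsq x + 10) / (3 * w) := by positivity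
      rw [abs_le]; constructor <;> linarith only [h2, h1]
    have e6 : (5000 : ℝ) / w ^ 2 = 4096 / w ^ 2 + 904 / w ^ 2 := by ring
    have e7 : (12 : ℝ) / w ^ 2 ≤ 904 / w ^ 2 := by gcongr; norm_num
    rw [abs_le] at e3 e5 ⊢
    constructor <;> linarith [e3.1, e3.2, e5.1, e5.2]
  · -- second bound
    have e1 : PD (fun y => (rho κ y - rho κ x) ^ 2) x =
        (1 / 16) * ∑ i : Fin 4, ∑ j : Fin 4, (1 / 2 * Real.log (1 + y i j)) ^ 2 := by
      rw [hPD]
      congr 1
      apply Finset.sum_congr rfl; intro i _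
      apply Finset.sum_congr rfl; intro j _
      rw [hrho i j]
    have e2 : (1 / 16) * ∑ i : Fin 4, ∑ j : Fin 4, (y i j / 2) ^ 2 =
        (nsq x + 3 / 2) / w ^ 2 := by
      have : ∑ i : Fin 4, ∑ j : Fin 4, (y i j / 2) ^ 2 =
        (1 / (4 * w ^ 2)) * (∑ i : Fin 4, ∑ j : Fin 4, inc x i j ^ 2) := by
        rw [Finset.mul_sum]
        apply Finset.sum_congr rfl; intro i _
        rw [Finset.mul_sum]
        apply Finset.sum_congr rfl; intro j _
        rw [hy]; simp only
        field_simp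
        ring
      rw [this, S2]
      field_simp
      ring
    have e3 : |(1 / 16) * ∑ i : Fin 4, ∑ j : Fin 4, (1 / 2 * Real.log (1 + y i j)) ^ 2 -
        (1 / 16) * ∑ i : Fin 4, ∑ j : Fin 4, (y i j / 2) ^ 2| ≤ 1024 / (w * s) := by
      rw [← mul_sub, ← Finset.sum_sub_distrib, abs_mul, abs_of_pos (by norm_num : (0:ℝ) < 1 / 16)]
      have h1 : |∑ i : Fin 4, (∑ j : Fin 4, (1 / 2 * Real.log (1 + y i j)) ^ 2 -
          ∑ j : Fin 4, (y i j / 2) ^ 2)| ≤
          ∑ _i : Fin 4, ∑ _j : Fin 4, 1024 / (w * s) := by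
        refine (Finset.abs_sum_le_sum_abs _ _).trans (Finset.sum_le_sum fun i _ => ?_)
        rw [← Finset.sum_sub_distrib]
        refine (Finset.abs_sum_le_sum_abs _ _).trans (Finset.sum_le_sum fun j _ => ?_)
        set l := Real.log (1 + y i j) with hl
        have h2 := log_expand1 (hyh i j)
        rw [← hl] at h2
        have hyy := hyh i j
        have hy3 : |y i j| ^ 3 ≤ 512 / (w * s) := by
          calc |y i j| ^ 3 ≤ (8 / s) ^ 3 := by gcongr; exact hyb i j
            _ = 512 / (w * s) := by rw [← hss]; field_simp; norm_num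
        have h3 : (1 / 2 * l) ^ 2 - (y i j / 2) ^ 2 = (l - y i j) * (l + y i j) / 4 := by ring
        rw [h3, abs_div, abs_mul, abs_of_pos (by norm_num : (0:ℝ) < 4)]
        have h4 : |l + y i j| ≤ 4 * |y i j| := by
          have : l + y i j = (l - y i j) + 2 * y i j := by ring
          rw [this]
          refine (abs_add_le _ _).trans ?_
          rw [abs_mul, abs_two]
          have h5 : 2 * y i j ^ 2 ≤ 2 * |y i j| := by
            rw [← sq_abs]
            nlinarith only [hyy, abs_nonneg (y i j)]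
          linarith only [h2, h5]
        have h6 : |l - y i j| * |l + y i j| ≤ (2 * y i j ^ 2) * (4 * |y i j|) :=
          mul_le_mul h2 h4 (abs_nonneg _) (by positivity)
        have h7 : (2 * y i j ^ 2) * (4 * |y i j|) = 8 * |y i j| ^ 3 := by
          rw [← sq_abs]; ring
        have h8 : (1024 : ℝ) / (w * s) = 2 * (512 / (w * s)) := by ring
        rw [h8]
        linarith only [hy3, h6, h7]
      rw [hconst] at h1
      linarith only [h1]
    rw [e1]
    rw [e2] at e3
    have e5 : (nsq x + 3 / 2) / w ^ 2 = nsq x / w ^ 2 + (3 / 2) / w ^ 2 := by ring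
    have e6 : (3 / 2) / w ^ 2 ≤ 1 / (w * s) := by
      rw [div_le_div_iff₀ (by positivity) (by positivity), ← hss]
      nlinarith only [hκ, hn0, hss, hs16, mul_pos hs0 hs0, mul_pos (mul_pos hs0 hs0) hs0]
    have e7 : (0:ℝ) ≤ (3 / 2) / w ^ 2 := by positivity
    have e8 : (5000 : ℝ) / (w * s) = 1024 / (w * s) + 1 / (w * s) + 3975 / (w * s) := by ring
    have e9 : (0:ℝ) ≤ 3975 / (w * s) := by positivity
    rw [e5] at e3
    rw [abs_le] at e3 ⊢
    constructor <;> linarith [e3.1, e3.2]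
  · intro i j
    rw [hrho i j, abs_mul, abs_of_pos (by norm_num : (0:ℝ) < 1 / 2)]
    have h2 := log_expand1 (hyh i j)
    have h5 : 2 * y i j ^ 2 ≤ |y i j| := by
      rw [← sq_abs]
      nlinarith only [hyh, abs_nonneg (y i j), hyh i j]
    have h6 : |Real.log (1 + y i j)| ≤ 2 * |y i j| := by
      have : Real.log (1 + y i j) = (Real.log (1 + y i j) - y i j) + y i j := by ring
      rw [this]
      refine (abs_add_le _ _).trans ?_
      linarith
    have h7 := hyb i j
    have h8 : (8 : ℝ) / s ≤ 5000 / s := by gcongr; norm_num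
    linarith

end Pool.Agent.Helper98.LogPoly
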